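import Mathlib
import Pool.Agent.Y257.HM.NegBV

/-!
# Q2: the exact set of end values at which a solution of bounded variation can fail to exist

An admissible pair `(ω₁, ω₂)` (both weights in Ω, each monotone, ω₁/ω₂ nonincreasing) for which no
function of bounded variation solves the moment problem, with `ω₁(1) = c₁` and `ω₂(1) = c₂`, exists
if and only if `0 < c₁ < c₂ ≤ 1/2`.

Existence for `c₂ > 1/2`: `n ∫ ω₂ x^(n-1) = c₂ ∓ m_n` with `m_n` the moments of a measure of mass
`|c₂ - 1| < c₂`, so its reciprocal is a convergent Neumann series of multiplicative convolutions.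
Failure for `c₁ < c₂ ≤ 1/2`: `ω_j = 1 - (1 - c_j) F`, where `F` is the distribution function of an
atomless measure on a thin Cantor set whose logarithms are, at the frequencies `3^(k²)`, nearly
odd multiples of `π`; then the Mellin transform of `ω₂` comes arbitrarily close to a zero in the
closed right half plane, while that of `ω₁` stays away from zero.
-/

set_option autoImplicit false

open MeasureTheory Set

namespace Pool.Agent.Results.MP_d888c7_an.BVEndValues

open Pool.Agent.Results.MP_d888c7_an.NoBVSolution (IsWeight lam IsRSIntegral)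
open Pool.Agent.Y257.HM

/-- **Q2, exact range.**  There is an admissible pair with end values `ω₁(1) = c₁`, `ω₂(1) = c₂` for
which no function of bounded variation solves the moment problem, if and only if
`0 < c₁ < c₂ ≤ 1/2`. -/
theorem result : ∀ c₁ c₂ : ℝ,
    (∃ ω₁ ω₂ : ℝ → ℝ, Admissible ω₁ ω₂ ∧ ω₁ 1 = c₁ ∧ ω₂ 1 = c₂ ∧
      ¬ ∃ β : ℝ → ℝ, BoundedVariationOn β (Icc 0 1) ∧
        ∀ n : ℕ, IsRSIntegral (fun x => x ^ n) β (lam ω₁ ω₂ n)) ↔
    0 < c₁ ∧ c₁ < c₂ ∧ c₂ ≤ 1 / 2 := by
  intro c₁ c₂
  constructor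
  · rintro ⟨ω₁, ω₂, h, rfl, rfl, hno⟩
    refine ⟨h.pos, lt_of_le_of_ne h.le ?_, ?_⟩
    · intro he
      apply hno
      obtain ⟨β, hβ, hs⟩ := isMom_one.isDiff.solution
      exact ⟨β, hβ, fun n => by rw [lam_one h he n]; exact hs n⟩
    · by_contra hc
      exact hno (bv_exists h (not_le.mp hc))
  · rintro ⟨h0, h1, h2⟩
    obtain ⟨ν, hν, hph⟩ := exists_good
    refine ⟨W (c₁ - 1) ν, W (c₂ - 1) ν, down_admissible hν h0 h1 (by linarith), ?_, ?_,
      no_bv hν hph h0 h1 h2⟩
    · rw [W_one hν]; ring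
    · rw [W_one hν]; ring

end Pool.Agent.Results.MP_d888c7_an.BVEndValues
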