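import Mathlib
import Pool.Agent.Y257.HM.NegMono

/-!
# Q1: the exact set of end values at which a nondecreasing solution can fail to exist

An admissible pair `(ω₁, ω₂)` (both weights in Ω, each monotone, ω₁/ω₂ nonincreasing) for which no
nondecreasing function solves the moment problem, with `ω₁(1) = c₁` and `ω₂(1) = c₂`, exists if
and only if `0 < c₁ < c₂ < 1` or `1 < c₁ < c₂`.  In other words Q1 holds for all pairs in which ω₁
is nonincreasing and ω₂ is nondecreasing, and fails for every other pair of distinct end values.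
-/

set_option autoImplicit false

open MeasureTheory Set

namespace Pool.Agent.Results.MP_d888c7_an.MonotoneEndValues

open Pool.Agent.Results.MP_d888c7_an.NoBVSolution (IsWeight lam IsRSIntegral)
open Pool.Agent.Y257.HM

/-- **Q1, exact range.**  There is an admissible pair with end values `ω₁(1) = c₁`, `ω₂(1) = c₂` for
which no nondecreasing function solves the moment problem, if and only if `0 < c₁ < c₂ < 1` or
`1 < c₁ < c₂`. -/
theorem result : ∀ c₁ c₂ : ℝ,
    (∃ ω₁ ω₂ : ℝ → ℝ, Admissible ω₁ ω₂ ∧ ω₁ 1 = c₁ ∧ ω₂ 1 = c₂ ∧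
      ¬ ∃ β : ℝ → ℝ, MonotoneOn β (Icc 0 1) ∧
        ∀ n : ℕ, IsRSIntegral (fun x => x ^ n) β (lam ω₁ ω₂ n)) ↔
    (0 < c₁ ∧ c₁ < c₂ ∧ c₂ < 1) ∨ (1 < c₁ ∧ c₁ < c₂) := by
  intro c₁ c₂
  constructor
  · rintro ⟨ω₁, ω₂, h, rfl, rfl, hno⟩
    have hlt : ω₁ 1 < ω₂ 1 := by
      refine lt_of_le_of_ne h.le ?_
      intro he
      apply hno
      obtain ⟨β, hβ, hs⟩ := isMom_one.solution
      exact ⟨β, hβ.monotoneOn _, fun n => by rw [lam_one h he n]; exact hs n⟩
    by_contra hc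
    rw [not_or] at hc
    have h2 : 1 ≤ ω₂ 1 := by
      by_contra h3
      exact hc.1 ⟨h.pos, hlt, not_le.mp h3⟩
    have h1 : ω₁ 1 ≤ 1 := by
      by_contra h3
      exact hc.2 ⟨not_le.mp h3, hlt⟩
    exact hno (mono_exists h h1 h2)
  · rintro (⟨h0, h1, h2⟩ | ⟨h1, h2⟩)
    · refine ⟨W (c₁ - 1) (unif (1 / 2) (3 / 5)), W (c₂ - 1) (unif (1 / 2) (3 / 5)),
        down_admissible good₁ h0 h1 h2, ?_, ?_, no_mono_down h0 h1 h2⟩
      · rw [W_one good₁]; ring
      · rw [W_one good₁]; ring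
    · exact ⟨U₁ c₁, U₂ c₁ c₂, up_admissible h1 h2, U₁_one c₁, U₂_one c₁ c₂, no_mono_up h1 h2⟩

end Pool.Agent.Results.MP_d888c7_an.MonotoneEndValues
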